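import Pool.Agent.R14.FX.D
import Pool.Agent.R14.FX.E
import Pool.Agent.R14.FX.U
import Pool.Agent.R14.FX.V
import Pool.Agent.R14.FX.F
import Pool.Agent.R14.FX.C
import Pool.Agent.R14.FX.M
import Pool.Agent.R14.FX.S
import Pool.Agent.R14.FX.Main
import Pool.Agent.R14.FX.D2
import Pool.Agent.R14.FX.P2
import Pool.Agent.R14.FX.G2
import Pool.Agent.R14.FX.U2
import Pool.Agent.R14.FX.S2
import Pool.Agent.R14.FX.Main2

set_option autoImplicit false

namespace Pool.Agent.Results.MP_7bf935_al.SharpBound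

open R14.FX Filter Topology

/-- Every level-transitive group of automorphisms of the `d`-regular rooted tree (`d ≥ 2`) has
fixed-point proportion at most `(d² - d - 1) / (d² - 1)`; this value is attained if `d` is a prime
power, and the supremum is strictly smaller if `d` is not a prime power. -/
theorem result :
    (∀ (d : ℕ) (G : Subgroup (∀ n : ℕ, Equiv.Perm (Fin n → Fin d))), 2 ≤ d → G ≤ AutT d →
      LevTrans G →
      (∀ n, fixProp (lev G n) ≤ 1 - cst d n) ∧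
      ∃ a : ℝ, Tendsto (fun n => fixProp (lev G n)) atTop (𝓝 a) ∧
        a ≤ ((d : ℝ) ^ 2 - d - 1) / ((d : ℝ) ^ 2 - 1) ∧
        (¬ IsPrimePow d → a ≤ ((d : ℝ) ^ 2 - d - 1) / ((d : ℝ) ^ 2 - 1) -
          1 / ((d : ℝ) * (d.factorial : ℝ)))) ∧
    ∀ q : ℕ, IsPrimePow q → ∃ G : Subgroup (∀ n : ℕ, Equiv.Perm (Fin n → Fin q)),
      G ≤ AutT q ∧ LevTrans G ∧
      Tendsto (fun n => fixProp (lev G n)) atTop (𝓝 (((q : ℝ) ^ 2 - q - 1) / ((q : ℝ) ^ 2 - 1))) := by
  have h1 := R14.FX.Main.main (R14.FX.U.main R14.FX.D.main) (R14.FX.V.main R14.FX.E.main)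
    R14.FX.F.main R14.FX.C.main R14.FX.M.main R14.FX.S.main
  have h2 := R14.FX.Main2.main (R14.FX.U2.main R14.FX.D2.main (R14.FX.G2.main R14.FX.P2.main))
    R14.FX.F.main R14.FX.S2.main
  refine ⟨fun d G hd hG hT => ?_, h1.2⟩
  obtain ⟨hb, a, ha, hle⟩ := h1.1 d G hd hG hT
  exact ⟨hb, a, ha, hle, fun hq => h2 d G hd hq hG hT a ha⟩

end Pool.Agent.Results.MP_7bf935_al.SharpBound
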